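import Mathlib

set_option autoImplicit false

namespace Pool.Agent.Results.MP_633f17_co.CrossProduct

open Finset

theorem result (t s : ℕ) (ht : 3 ≤ t) : ∃ n : ℕ, t + s ≤ n ∧ ∃ F G : Finset (Finset (Fin n)),
    (∀ A ∈ F, ∀ B ∈ G, t ≤ (A ∩ B).card ∧ (A ∪ B).card + s ≤ n) ∧
    ∀ H : Finset (Finset (Fin n)),
      (∀ A ∈ H, ∀ B ∈ H, t ≤ (A ∩ B).card ∧ (A ∪ B).card + s ≤ n) →
      H.card ^ 2 < F.card * G.card := by
  obtain ⟨T, -, hT⟩ := exists_subset_card_eq (s := (univ : Finset (Fin (t + s + 1)))) (n := t + 1)
    (by simp)
  refine ⟨t + s + 1, by omega, insert T (powersetCard t T), {T}, fun A hA B hB => ?_,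
    fun H hH => ?_⟩
  · rw [mem_singleton.1 hB]
    rcases mem_insert.1 hA with rfl | h
    · simp only [inter_self, union_self]
      omega
    · obtain ⟨h1, h2⟩ := mem_powersetCard.1 h
      rw [inter_eq_left.2 h1, union_eq_right.2 h1]
      omega
  · have h1 : H.card ≤ (univ : Finset Bool).card := by
      refine card_le_card_of_injOn (fun A => decide (A.card = t)) (fun _ _ => mem_univ _)
        fun A hA B hB h => ?_
      have a := hH A hA A hA
      have b := hH B hB B hB
      have c := hH A hA B hB
      simp only [inter_self, union_self] at a b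
      simp only [decide_eq_decide] at h
      by_cases hc : A.card = t
      · exact (eq_of_subset_of_card_le (inter_subset_left (s₁ := A) (s₂ := B)) (by omega)).symm.trans
          (eq_of_subset_of_card_le inter_subset_right (by have := h.1 hc; omega))
      · have : B.card ≠ t := fun hb => hc (h.2 hb)
        exact (eq_of_subset_of_card_le (subset_union_left (s₁ := A) (s₂ := B)) (by omega)).trans
          (eq_of_subset_of_card_le subset_union_right (by omega)).symm
    rw [card_insert_of_notMem (fun h => by have := (mem_powersetCard.1 h).2; omega),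
      card_powersetCard, hT, Nat.choose_succ_self_right, card_singleton]
    simp only [card_univ, Fintype.card_bool] at h1
    nlinarith

end Pool.Agent.Results.MP_633f17_co.CrossProduct
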